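import Pool.Agent.R782.Bal.Main

/-!
# `ℓ²`-homology above the middle dimension, for right-angled Coxeter groups with coloured nerves in spheres

Let `L` be the flag complex of the finite graph `G`. If `L` is a full subcomplex of a flag triangulated
`(n-1)`-sphere, or more generally is piecewise linearly embedded in the `(n-1)`-sphere, then the torsion-free
subgroups (of finite or infinite index) of the right-angled Coxeter group `W G` are the fundamental groups of
aspherical `n`-manifolds, covered by the thickened Davis complex; the subgroups of finite index correspond to compact
manifolds with boundary.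

The class `BR n` contains for `n = 2 d + 1` every `(d + 1)`-colourable flag complex which is embedded in the sphere of
dimension `2 d` (in the weak sense of `Emb d`), it contains the class `AR n` of the earlier result `SplitAbove`, and
is closed under the same operations (full subcomplexes, vertex splittings, joins, gluings, ...) and under
suspensions.
-/

set_option autoImplicit false

namespace Pool.Agent.Results.MP_4f4d9f_gt.BalancedFull

open Pool.Agent.W907.SG Pool.Agent.Y132.SI Pool.Agent.R781.VS Pool.Agent.R782.Bal

/-- Let the finite graph `G` be in the class `BR n` and let `A` be a set of vertices. (1) There are no nonzero `ℓ²`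
harmonic `i`-chains on the Davis complex of the special subgroup `W (G.induce A)` of `W G` for `i > n / 2`. (2) For
each `ε > 0` there is a finite set `E` of nontrivial elements of `W (G.induce A)` such that for every subgroup `H` of
finite index which contains no conjugate of an element of `E`, and for all `i > n / 2`, the `i`-th real Betti number
of `H` is at most `ε [W (G.induce A) : H]`. -/
theorem result : ∀ (n : ℕ) (V : Type) (G : SimpleGraph V), BR n G → ∀ (A : Set V) [Fintype A] [LinearOrder A],
    (∀ i : ℕ, n < 2 * i → L2Van (G.induce A) i) ∧
    ∀ ε : ℝ, 0 < ε → ∃ E : Finset (W (G.induce A)), (1 : W (G.induce A)) ∉ E ∧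
      ∀ H : Subgroup (W (G.induce A)), H.FiniteIndex → (∀ g ∈ E, ∀ x : W (G.induce A), x * g * x⁻¹ ∉ H) →
        ∀ i : ℕ, n < 2 * i → (Module.finrank ℝ (HInv (G.induce A) H i) : ℝ) ≤ ε * H.index := by
  intro n V G hG A _ _
  have h : ∀ i : ℕ, n < 2 * i → L2Van (G.induce A) i := fun i hi => above_BR (BR.full G A hG) i hi
  exact ⟨h, fun ε hε => growth_of_above _ n h ε hε⟩

end Pool.Agent.Results.MP_4f4d9f_gt.BalancedFull
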