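import Pool.Agent.R703.MO.Main

/-!
# `ℓ²`-homology above the middle dimension: the relative Morse criterion in one degree

Let `L` be the flag complex of the finite graph `G`. If `L` is a full subcomplex of a flag triangulated
`(n-1)`-sphere, or more generally is piecewise linearly embedded in the `(n-1)`-sphere, then the torsion-free
subgroups (of finite or infinite index) of the right-angled Coxeter group `W G` are the fundamental groups of
aspherical `n`-manifolds, covered by the thickened Davis complex. Q1 predicts that the `ℓ²`-homology of the Davis
complex vanishes in the degrees `i > n / 2`.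

We prove a relative Morse criterion for the vanishing in one degree `i`. Let `B` be a set of vertices of `G`, the
horizontal directions. A direction system `Dir G B X` on the finite set `X` is an action of `W G` on `X` such that the
elements of `B` act trivially, and an orientation of the edges of `X` with labels outside `B`, such that opposite
edges of squares are parallel. (This is a circle-valued Morse function on a finite covering which is constant on the
cubes with directions in `B` and is not constant on the other edges.) For `x ∈ X` let `U x` be the union of `B` and of the
set of the ascending directions at `x`. The criterion: there is a family `R` of pairs `(k, A)`, of degrees and sets of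
vertices, such that `(i, U x)` is in `R` for all `x`, and each member `(k, A)` of `R`
* is of the form `A ⊆ B`, and the `ℓ²`-homology of the Davis complex of the special subgroup generated by `A`
  vanishes in the degree `k`,
* or `A` is a cone: some `u ∈ A` outside `B` is adjacent to all the other elements of `A`,
* or `A` does not meet `B` and its flag complex has no reduced real homology in the degree `k - 1`,
* or for some `v ∈ A` outside `B` the pairs `(k, A \ v)` and `(k - 1, (A \ v) ∩ link v)` are in `R`.
-/

set_option autoImplicit false

namespace Pool.Agent.Results.MP_4f4d9f_gt.RelativeMorse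

open Pool.Agent.W907.SG Pool.Agent.Y132.SI Pool.Agent.R703.MO

/-- The relative Morse criterion in the degree `i`: (1) there are no nonzero `ℓ²` harmonic `i`-chains on the Davis
complex of `W G`, (2) for each `ε > 0` there is a finite set `E` of nontrivial elements of `W G` such that for every
subgroup `H` of finite index which contains no conjugate of an element of `E` the `i`-th real Betti number of `H` (the
dimension of the space of the `H`-invariant real harmonic `i`-chains of the Davis complex) is at most
`ε [W G : H]`. -/
theorem result : ∀ (V : Type) [Fintype V] [LinearOrder V] (G : SimpleGraph V) (B : Set V) (X : Type) [Finite X]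
    [Nonempty X] (D : Dir G B X) (i : ℕ) (R : ℕ → Set V → Prop),
    (∀ x, R i (D.U x)) →
    (∀ k A, R k A → (∃ v ∈ A, v ∉ B) → Cone G B A ∨ ((∀ v ∈ A, v ∉ B) ∧ HomZero G A k) ∨
      ∃ v ∈ A, v ∉ B ∧ R k (A \ {v}) ∧ ∀ j, k = j + 1 → R j ((A \ {v}) ∩ G.neighborSet v)) →
    (∀ k A, R k A → A ⊆ B → ∀ [Fintype A], L2Van (G.induce A) k) →
    L2Van G i ∧
    ∀ ε : ℝ, 0 < ε → ∃ E : Finset (W G), (1 : W G) ∉ E ∧
      ∀ H : Subgroup (W G), H.FiniteIndex → (∀ g ∈ E, ∀ x : W G, x * g * x⁻¹ ∉ H) →
        (Module.finrank ℝ (HInv G H i) : ℝ) ≤ ε * H.index := by
  intro V _ _ G B X _ _ D i R h1 h2 h3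
  have h : L2Van G i := morse_family G B D i R h1 h2 h3
  refine ⟨h, fun ε hε => ?_⟩
  obtain ⟨E, hE1, hE2⟩ := growth_set G (fun k => k = i) (fun k hk => by subst hk; exact h) ε hε
  exact ⟨E, hE1, fun H hfin hH => hE2 H hfin hH i rfl⟩

end Pool.Agent.Results.MP_4f4d9f_gt.RelativeMorse
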