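import Pool.Agent.R781.VS.Growth

/-!
# `ℓ²`-homology above the middle dimension, for right-angled Coxeter groups with nerves built by vertex splittings

Let `G` be a finite graph in the class `AR n`.  If the flag complex of `G` is a full subcomplex of a flag triangulated
`(n-1)`-sphere `L`, then a regular neighbourhood of the Davis complex of `W G` in the Davis manifold of `L`, divided
by a torsion-free subgroup `H` of finite index of `W G`, is a compact aspherical `n`-manifold (with boundary) with
fundamental group `H`.

The class `AR n` is closed under vertex splitting, the inverse of the contraction of an edge which is not contained in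
an induced 4-cycle, and under the operations of the class `AQ n` (full subcomplexes, edge subdivisions, joins,
gluings, ...); it contains the barycentric subdivisions of all triangulated `(n-1)`-spheres.
-/

set_option autoImplicit false

namespace Pool.Agent.Results.MP_4f4d9f_gt.SplitAbove

open Pool.Agent.W907.SG Pool.Agent.W907.SM Pool.Agent.TH652.Above Pool.Agent.Y132.SI Pool.Agent.R781.VS

/-- Let the finite graph `G` be in the class `AR n`. (1) There are no nonzero `ℓ²` harmonic `i`-chains
on the Davis complex of `W G` for `i > n / 2`. (2) For each `ε > 0` there is a finite set `E` of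
nontrivial elements of `W G` such that for every subgroup `H` of finite index which contains no
conjugate of an element of `E`, and for all `i > n / 2`, the `i`-th real Betti number of `H` (the
dimension of the space of the `H`-invariant real harmonic `i`-chains of the Davis complex) is at most
`ε [W G : H]`. -/
theorem result : ∀ (n : ℕ) (V : Type) [Fintype V] [LinearOrder V] (G : SimpleGraph V), AR n G →
    (∀ i : ℕ, n < 2 * i → L2Van G i) ∧
    ∀ ε : ℝ, 0 < ε → ∃ E : Finset (W G), (1 : W G) ∉ E ∧
      ∀ H : Subgroup (W G), H.FiniteIndex → (∀ g ∈ E, ∀ x : W G, x * g * x⁻¹ ∉ H) →
        ∀ i : ℕ, n < 2 * i → (Module.finrank ℝ (HInv G H i) : ℝ) ≤ ε * H.index := by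
  intro n V _ _ G hA
  have h : ∀ i : ℕ, n < 2 * i → L2Van G i := fun i hi => above_AR hA i hi
  exact ⟨h, fun ε hε => growth_of_above G n h ε hε⟩

end Pool.Agent.Results.MP_4f4d9f_gt.SplitAbove
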